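import Pool.Agent.Helper60.GUM.GU

/-!
# MP_0bd1d1_al: bounded decomposition numbers for the constituents of the permutation
characters on totally isotropic subspaces, unitary groups `GU_m(q)`, all `m`, all `q`, all `l`

`F / k` is a quadratic extension of finite fields of characteristic `p` (odd or even), `b` a
nondegenerate hermitian form on the `F`-space `X` of finite dimension, `R` a valuation ring with
fraction field `K`, with `p` a unit of `R` and with a primitive `p`-th root of unity in `R`.
Every reduction of every representation contained in the permutation representation on the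
totally isotropic `j`-dimensional subspaces, `2 j ≠ dim X`, has composition length at most
`3 ^ dim X`.  The case `2 j = dim X` is the hand-in `UnitaryRows`; the hypothesis `_hj` only keeps
the two statements apart, the proof does not use it.
-/

namespace Pool.Agent.Results.MP_0bd1d1_al.HermitianRows

open Module

/-- The unitary group of the form `b`. -/
def GU {F X : Type*} [Field F] [AddCommGroup X] [Module F X] (b : X → X → F) :
    Subgroup (X ≃ₗ[F] X) where
  carrier := {g | ∀ u v, b (g u) (g v) = b u v}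
  one_mem' := fun _ _ => rfl
  mul_mem' := by
    intro g h hg hh u v
    change b (g (h u)) (g (h v)) = b u v
    rw [hg, hh]
  inv_mem' := by
    intro g hg u v
    have h1 : ∀ x, g (g⁻¹ x) = x := fun x => g.apply_symm_apply x
    have h2 := hg (g⁻¹ u) (g⁻¹ v)
    rw [h1, h1] at h2
    exact h2.symm

/-- The totally isotropic subspaces of dimension `j`. -/
def TotIso {F X : Type*} [Field F] [AddCommGroup X] [Module F X] (b : X → X → F)
    (j : ℕ) : Set (Submodule F X) :=
  {W | finrank F W = j ∧ ∀ u ∈ W, ∀ v ∈ W, b u v = 0}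

/-- `Reduct R ρ L n`: the reduction `L / 𝔪 L` of the `R`-submodule `L` of the
representation `ρ` has composition length at most `n`: every chain
`𝔪 L ≤ N 0 < N 1 < ... < N r ≤ L` of stable `R`-submodules has `r ≤ n`. -/
def Reduct (R : Type*) [CommRing R] [IsLocalRing R] {K G V : Type*} [Field K] [Group G]
    [AddCommGroup V] [Module K V] [Module R V] (ρ : Representation K G V)
    (L : Submodule R V) (n : ℕ) : Prop :=
  ∀ (r : ℕ) (N : ℕ → Submodule R V),
    (∀ i ≤ r, ∀ (g : G), ∀ v ∈ N i, ρ g v ∈ N i) →
    (∀ i < r, N i < N (i + 1)) →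
    N r ≤ L →
    (∀ a ∈ IsLocalRing.maximalIdeal R, ∀ v ∈ L, a • v ∈ N 0) →
    r ≤ n

theorem result {k F X R K V : Type*} [Field k] [Finite k] [Field F] [Algebra k F]
    (hF : finrank k F = 2) (σ : F ≃ₐ[k] F) (hσ : σ ≠ 1)
    [AddCommGroup X] [Module F X] [FiniteDimensional F X]
    (b : X → X → F) (hadd : ∀ x y z, b (x + y) z = b x z + b y z)
    (hsmul : ∀ (c : F) x z, b (c • x) z = c * b x z) (hsym : ∀ x y, b y x = σ (b x y))
    (hnd : ∀ x, (∀ y, b x y = 0) → x = 0)
    (p : ℕ) [Fact p.Prime] [CharP k p]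
    [CommRing R] [IsDomain R] [ValuationRing R] [Field K] [Algebra R K] [IsFractionRing R K]
    (hp : IsUnit (p : R)) (ζ : R) (hζ : IsPrimitiveRoot ζ p)
    (j : ℕ) (_hj : 2 * j ≠ finrank F X) (G : Subgroup (X ≃ₗ[F] X)) (hG : GU b ≤ G)
    [AddCommGroup V] [Module K V] [Module R V] [IsScalarTower R K V]
    (ρ : Representation K G V) (ι : V →ₗ[K] (Submodule F X → K))
    (hι : Function.Injective ι) (hS : ∀ v W, W ∉ TotIso b j → ι v W = 0)
    (hρ : ∀ (g : G) v W, ι (ρ g v) W = ι v (W.comap ((g : X ≃ₗ[F] X) : X →ₗ[F] X)))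
    (L : Submodule R V) :
    Reduct R ρ L (3 ^ finrank F X) := by
  intro r N hN hlt hr hm
  have hB : OG.Bd R K (GU b : Set (X ≃ₗ[F] X)) (TotIso b j) (3 ^ finrank F X) :=
    GUM.Bd_GU (B := ⟨b, hadd, hsmul, hsym⟩) (UN.UG.QE_of σ hσ hF)
      (fun x hx => hnd x (fun y => hx y)) p hp ζ hζ j
  exact GUM.chain_le (GU b : Set (X ≃ₗ[F] X)) (TotIso b j) _ hB G (fun g hg => hG hg) ρ ι hι hS
    hρ L r N hN hlt hr hm

end Pool.Agent.Results.MP_0bd1d1_al.HermitianRows
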