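import Pool.Agent.Helper60.OG.Fin

/-!
# MP_0bd1d1_al: bounded decomposition numbers for the constituents of the permutation
characters on totally singular subspaces, orthogonal groups, all q and all l

`k` is a finite field of characteristic `p` (odd or even), `Q` a quadratic form on a
`k`-space `X` of finite dimension such that every nonzero singular vector has a vector that
is not orthogonal to it, `R` a valuation ring with fraction field `K`, with `p` a unit of `R`
and with a primitive `p`-th root of unity in `R`.  Every reduction of every representation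
contained in the permutation representation on the totally singular `j`-dimensional subspaces
has composition length at most `2 ^ s * 3 ^ dim X`, for all groups containing a group reached
from the orthogonal group by passing `s` times to a subgroup of index at most two.
-/

namespace Pool.Agent.Results.MP_0bd1d1_al.OrthogonalRows

open QuadraticMap Module

/-- The orthogonal group `O(X, Q)`. -/
def Ort {k X : Type*} [Field k] [AddCommGroup X] [Module k X] (Q : QuadraticForm k X) :
    Subgroup (X ≃ₗ[k] X) where
  carrier := {g | ∀ x, Q (g x) = Q x}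
  one_mem' := fun _ => rfl
  mul_mem' := by
    intro g h hg hh x
    change Q (g (h x)) = Q x
    rw [hg, hh]
  inv_mem' := by
    intro g hg x
    have h1 : g (g⁻¹ x) = x := g.apply_symm_apply x
    have h2 := hg (g⁻¹ x)
    rw [h1] at h2
    exact h2.symm

/-- The totally singular subspaces of dimension `j`. -/
def TotSing {k X : Type*} [Field k] [AddCommGroup X] [Module k X] (Q : QuadraticForm k X)
    (j : ℕ) : Set (Submodule k X) :=
  {W | finrank k W = j ∧ ∀ x ∈ W, Q x = 0}

/-- `Reduct R ρ L n`: the reduction `L / 𝔪 L` of the `R`-submodule `L` of the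
representation `ρ` has composition length at most `n`: every chain
`𝔪 L ≤ N 0 < N 1 < ... < N r ≤ L` of stable `R`-submodules has `r ≤ n`. -/
def Reduct (R : Type*) [CommRing R] [IsLocalRing R] {K G V : Type*} [Field K] [Group G]
    [AddCommGroup V] [Module K V] [Module R V] (ρ : Representation K G V)
    (L : Submodule R V) (n : ℕ) : Prop :=
  ∀ (r : ℕ) (N : ℕ → Submodule R V),
    (∀ i ≤ r, ∀ (g : G), ∀ v ∈ N i, ρ g v ∈ N i) →
    (∀ i < r, N i < N (i + 1)) →
    N r ≤ L →
    (∀ a ∈ IsLocalRing.maximalIdeal R, ∀ v ∈ L, a • v ∈ N 0) →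
    r ≤ n

theorem result {k X R K V : Type*} [Field k] [Finite k] [AddCommGroup X] [Module k X]
    [FiniteDimensional k X] (Q : QuadraticForm k X)
    (hQ : ∀ x, x ≠ 0 → Q x = 0 → ∃ y, polar Q x y ≠ 0)
    (p : ℕ) [Fact p.Prime] [CharP k p]
    [CommRing R] [IsDomain R] [ValuationRing R] [Field K] [Algebra R K] [IsFractionRing R K]
    (hp : IsUnit (p : R)) (ζ : R) (hζ : IsPrimitiveRoot ζ p)
    (s : ℕ) (C : ℕ → Subgroup (X ≃ₗ[k] X)) (hC0 : C 0 = Ort Q)
    (hC : ∀ i < s, C (i + 1) ≤ C i ∧ (C (i + 1)).relIndex (C i) ≤ 2)
    (G : Subgroup (X ≃ₗ[k] X)) (hG : C s ≤ G)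
    [AddCommGroup V] [Module K V] [Module R V] [IsScalarTower R K V]
    (ρ : Representation K G V) (j : ℕ) (ι : V →ₗ[K] (Submodule k X → K))
    (hι : Function.Injective ι) (hS : ∀ v W, W ∉ TotSing Q j → ι v W = 0)
    (hρ : ∀ (g : G) v W, ι (ρ g v) W = ι v (W.comap ((g : X ≃ₗ[k] X) : X →ₗ[k] X)))
    (L : Submodule R V) :
    Reduct R ρ L (2 ^ s * 3 ^ finrank k X) := by
  intro r N hN hlt hr hm
  obtain ⟨ψ, hψ⟩ := OG.exists_char (k := k) (R := R) p ζ hζ
  have hOrt : Ort Q = OG.Ort Q := rfl
  have hq : IsUnit ((Nat.card k : ℕ) : R) := by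
    have : Fintype k := Fintype.ofFinite k
    obtain ⟨n, _, hn⟩ := FiniteField.card k p
    rw [Nat.card_eq_fintype_card, hn, Nat.cast_pow]
    exact hp.pow _
  have hND : OG.ND Q ⊤ := by
    intro x _ hx0 hx
    obtain ⟨y, hy⟩ := hQ x hx0 hx
    exact ⟨y, Submodule.mem_top, hy⟩
  obtain ⟨_, hB⟩ := OG.Bd_chain (K := K) (R := R) hND hψ hq j s C (by rw [hC0, hOrt]) hC
  set I : V →ₗ[R] (Submodule k X → K) := ι.restrictScalars R with hI
  have hIinj : Function.Injective I := hι
  set N' : ℕ → Submodule R (Submodule k X → K) := fun i => (N (min i r)).map I with hN'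
  have hmono : ∀ i j, i ≤ j → j ≤ r → N i ≤ N j := by
    intro i j hij hjr
    induction j with
    | zero =>
      have : i = 0 := by omega
      rw [this]
    | succ j ih =>
      rcases Nat.lt_or_ge j i with h | h
      · have : i = j + 1 := by omega
        rw [this]
      · exact le_trans (ih h (by omega)) (hlt j (by omega)).le
  have hCh : OG.Ch R (C s : Set (X ≃ₗ[k] X)) (OG.Sk Q ⊤ j) N' := by
    refine ⟨?_, ?_, ?_, ?_⟩
    · intro a b hab
      exact Submodule.map_mono (hmono _ _ (min_le_min_right r hab) (min_le_right _ _))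
    · intro i f hf W hW
      obtain ⟨v, _, rfl⟩ := (Submodule.mem_map).1 hf
      refine hS v W ?_
      intro h
      exact hW ⟨le_top, h.1, h.2⟩
    · intro i a ha f hf
      obtain ⟨v, hv, rfl⟩ := (Submodule.mem_map).1 hf
      rw [← map_smul]
      apply Submodule.mem_map_of_mem
      rw [Nat.zero_min]
      exact hm a ha v (hr (hmono _ _ (min_le_right i r) le_rfl hv))
    · intro g hg i f hf
      obtain ⟨v, hv, rfl⟩ := (Submodule.mem_map).1 hf
      have h1 : OG.act g (I v) = I (ρ ⟨g, hG hg⟩ v) := by
        funext W
        have h2 : g⁻¹ • W = W.comap (g : X →ₗ[k] X) := by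
          ext x
          rw [OG.mem_smul, Submodule.mem_comap]
          constructor
          · rintro ⟨w, hw, rfl⟩
            have : g (g⁻¹ w) = w := g.apply_symm_apply w
            change g (g⁻¹ w) ∈ W
            rw [this]
            exact hw
          · intro hx
            exact ⟨g x, hx, g.symm_apply_apply x⟩
        rw [OG.act_apply, h2]
        exact (hρ ⟨g, hG hg⟩ v W).symm
      rw [h1]
      exact Submodule.mem_map_of_mem (hN _ (min_le_right i r) _ v hv)
  have hsteps : OG.steps N' r = Finset.range r := by
    ext i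
    rw [OG.mem_steps, Finset.mem_range]
    constructor
    · exact fun h => h.1
    · intro h
      refine ⟨h, ?_⟩
      intro he
      have h1 : min i r = i := min_eq_left h.le
      have h2 : min (i + 1) r = i + 1 := min_eq_left h
      have he' : (N (min i r)).map I = (N (min (i + 1) r)).map I := he
      rw [h1, h2] at he'
      exact (hlt i h).ne (Submodule.map_injective_of_injective hIinj he')
  have hfin := hB N' hCh r
  rw [hsteps, Finset.card_range] at hfin
  exact hfin

end Pool.Agent.Results.MP_0bd1d1_al.OrthogonalRows
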