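import Pool.Agent.Helper60.SY.SMain
import Pool.Agent.Helper60.SY.SM
import Pool.Agent.Helper60.OG.Fin

/-!
# MP_0bd1d1_al: bounded decomposition numbers for the constituents of the permutation
characters on totally isotropic subspaces, symplectic groups, q odd, all l

`k` is a finite field of odd characteristic `p`, `(X, w)` a nondegenerate symplectic space
over `k` of dimension `2 n`, `R` a valuation ring with fraction field `K`, with `p` a unit of
`R` and with a primitive `p`-th root of unity in `R`.  Every reduction of every representation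
contained in the permutation representation on the totally isotropic `j`-dimensional subspaces
has composition length at most `(n + 1) * 24 ^ n`.
-/

namespace Pool.Agent.Results.MP_0bd1d1_al.SymplecticRows

open Module

/-- The symplectic group of the form `w`. -/
def Sp {k X : Type*} [Field k] [AddCommGroup X] [Module k X] (w : X →ₗ[k] X →ₗ[k] k) :
    Subgroup (X ≃ₗ[k] X) where
  carrier := {g | ∀ u v, w (g u) (g v) = w u v}
  one_mem' := fun _ _ => rfl
  mul_mem' := by
    intro g h hg hh u v
    change w (g (h u)) (g (h v)) = w u v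
    rw [hg, hh]
  inv_mem' := by
    intro g hg u v
    have h1 : ∀ x, g (g⁻¹ x) = x := fun x => g.apply_symm_apply x
    have h2 := hg (g⁻¹ u) (g⁻¹ v)
    rw [h1, h1] at h2
    exact h2.symm

/-- The totally isotropic subspaces of dimension `j`. -/
def TotIso {k X : Type*} [Field k] [AddCommGroup X] [Module k X] (w : X →ₗ[k] X →ₗ[k] k)
    (j : ℕ) : Set (Submodule k X) :=
  {W | finrank k W = j ∧ ∀ u ∈ W, ∀ v ∈ W, w u v = 0}

/-- `Reduct R ρ L n`: the reduction `L / 𝔪 L` of the `R`-submodule `L` of the
representation `ρ` has composition length at most `n`: every chain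
`𝔪 L ≤ N 0 < N 1 < ... < N r ≤ L` of stable `R`-submodules has `r ≤ n`. -/
def Reduct (R : Type*) [CommRing R] [IsLocalRing R] {K G V : Type*} [Field K] [Group G]
    [AddCommGroup V] [Module K V] [Module R V] (ρ : Representation K G V)
    (L : Submodule R V) (n : ℕ) : Prop :=
  ∀ (r : ℕ) (N : ℕ → Submodule R V),
    (∀ i ≤ r, ∀ (g : G), ∀ v ∈ N i, ρ g v ∈ N i) →
    (∀ i < r, N i < N (i + 1)) →
    N r ≤ L →
    (∀ a ∈ IsLocalRing.maximalIdeal R, ∀ v ∈ L, a • v ∈ N 0) →
    r ≤ n

theorem result {k X R K V : Type*} [Field k] [Finite k] [AddCommGroup X] [Module k X]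
    [FiniteDimensional k X] (w : X →ₗ[k] X →ₗ[k] k) (hw : ∀ x, w x x = 0)
    (hw' : ∀ x, (∀ y, w x y = 0) → x = 0)
    (p : ℕ) [Fact p.Prime] [CharP k p] (h2 : p ≠ 2)
    [CommRing R] [IsDomain R] [ValuationRing R] [Field K] [Algebra R K] [IsFractionRing R K]
    (hp : IsUnit (p : R)) (ζ : R) (hζ : IsPrimitiveRoot ζ p)
    (G : Subgroup (X ≃ₗ[k] X)) (hG : Sp w ≤ G)
    [AddCommGroup V] [Module K V] [Module R V] [IsScalarTower R K V]
    (ρ : Representation K G V) (j : ℕ) (ι : V →ₗ[K] (Submodule k X → K))
    (hι : Function.Injective ι) (hS : ∀ v W, W ∉ TotIso w j → ι v W = 0)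
    (hρ : ∀ (g : G) v W, ι (ρ g v) W = ι v (W.comap ((g : X ≃ₗ[k] X) : X →ₗ[k] X)))
    (L : Submodule R V) :
    Reduct R ρ L ((finrank k X / 2 + 1) * 24 ^ (finrank k X / 2)) := by
  intro r N hN hlt hr hm
  obtain ⟨ψ, hψ⟩ := OG.exists_char (k := k) (R := R) p ζ hζ
  have hq : IsUnit ((Nat.card k : ℕ) : R) := by
    have : Fintype k := Fintype.ofFinite k
    obtain ⟨n, _, hn⟩ := FiniteField.card k p
    rw [Nat.card_eq_fintype_card, hn, Nat.cast_pow]
    exact hp.pow _
  have h2k : (2 : k) ≠ 0 := by
    intro h
    have h3 : ((2 : ℕ) : k) = 0 := by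
      rw [Nat.cast_ofNat]
      exact h
    rw [CharP.cast_eq_zero_iff k p] at h3
    have h4 : p = 1 ∨ p = 2 := (Nat.dvd_prime Nat.prime_two).1 h3
    rcases h4 with h5 | h5
    · exact (Fact.out : p.Prime).one_lt.ne' h5
    · exact h2 h5
  obtain ⟨n, φ, hφ⟩ := SY.SM.exists_model w hw hw'
  have hdim : finrank k X / 2 = n := by
    rw [φ.finrank_eq, Module.finrank_prod, Subspace.dual_finrank_eq, Module.finrank_fin_fun]
    omega
  have hB0 := SY.Bd_S (K := K) (R := R) (k := k) (E := Fin n → k) h2k hψ hq j
  rw [Module.finrank_fin_fun] at hB0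
  have hom : ∀ u v, w (φ.symm u) (φ.symm v) = SY.om u v := by
    intro u v
    rw [← hφ, φ.apply_symm_apply, φ.apply_symm_apply]
  have hB1 := SY.Bd_transport (fun g => φ.trans (g.trans φ.symm))
    (fun W => W.map (φ.symm : ((Fin n → k) × Dual k (Fin n → k)) →ₗ[k] X))
    SY.S1.IsoT_stb (by
      intro g _ W _
      rw [OG.smul_def, OG.smul_def, ← Submodule.map_comp, ← Submodule.map_comp]
      congr 1
      refine LinearMap.ext (fun x => ?_)
      change φ.symm (g x) = φ.symm (g (φ (φ.symm x)))
      rw [φ.apply_symm_apply]) hB0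
  have hB : OG.Bd R K (Sp w : Set (X ≃ₗ[k] X)) (TotIso w j)
      ((finrank k X / 2 + 1) * 24 ^ (finrank k X / 2)) := by
    rw [hdim]
    refine OG.Bd_mono hB1 ?_ ?_ le_rfl
    · rintro _ ⟨g, hg, rfl⟩ u v
      change w (φ.symm (g (φ u))) (φ.symm (g (φ v))) = w u v
      rw [hom, hg, hφ]
    · intro W hW
      refine ⟨W.map (φ : X →ₗ[k] ((Fin n → k) × Dual k (Fin n → k))), ⟨?_, ?_⟩, ?_⟩
      · rw [LinearEquiv.finrank_map_eq]
        exact hW.1
      · rintro _ ⟨u, hu, rfl⟩ _ ⟨v, hv, rfl⟩
        change SY.om (φ u) (φ v) = 0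
        rw [hφ]
        exact hW.2 u hu v hv
      · change (W.map _).map _ = W
        rw [← Submodule.map_comp]
        have : (φ.symm : ((Fin n → k) × Dual k (Fin n → k)) →ₗ[k] X) ∘ₗ
            (φ : X →ₗ[k] ((Fin n → k) × Dual k (Fin n → k))) = LinearMap.id := by
          ext x
          simp
        rw [this, Submodule.map_id]
  set I : V →ₗ[R] (Submodule k X → K) := ι.restrictScalars R with hI
  have hIinj : Function.Injective I := hι
  set N' : ℕ → Submodule R (Submodule k X → K) := fun i => (N (min i r)).map I with hN'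
  have hmono : ∀ i j, i ≤ j → j ≤ r → N i ≤ N j := by
    intro i j hij hjr
    induction j with
    | zero =>
      have : i = 0 := by omega
      rw [this]
    | succ j ih =>
      rcases Nat.lt_or_ge j i with h | h
      · have : i = j + 1 := by omega
        rw [this]
      · exact le_trans (ih h (by omega)) (hlt j (by omega)).le
  have hCh : OG.Ch R (Sp w : Set (X ≃ₗ[k] X)) (TotIso w j) N' := by
    refine ⟨?_, ?_, ?_, ?_⟩
    · intro a b hab
      exact Submodule.map_mono (hmono _ _ (min_le_min_right r hab) (min_le_right _ _))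
    · intro i f hf W hW
      obtain ⟨v, _, rfl⟩ := (Submodule.mem_map).1 hf
      exact hS v W hW
    · intro i a ha f hf
      obtain ⟨v, hv, rfl⟩ := (Submodule.mem_map).1 hf
      rw [← map_smul]
      apply Submodule.mem_map_of_mem
      rw [Nat.zero_min]
      exact hm a ha v (hr (hmono _ _ (min_le_right i r) le_rfl hv))
    · intro g hg i f hf
      obtain ⟨v, hv, rfl⟩ := (Submodule.mem_map).1 hf
      have h1 : OG.act g (I v) = I (ρ ⟨g, hG hg⟩ v) := by
        funext W
        have h2 : g⁻¹ • W = W.comap (g : X →ₗ[k] X) := by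
          ext x
          rw [OG.mem_smul, Submodule.mem_comap]
          constructor
          · rintro ⟨w, hw, rfl⟩
            have : g (g⁻¹ w) = w := g.apply_symm_apply w
            change g (g⁻¹ w) ∈ W
            rw [this]
            exact hw
          · intro hx
            exact ⟨g x, hx, g.symm_apply_apply x⟩
        rw [OG.act_apply, h2]
        exact (hρ ⟨g, hG hg⟩ v W).symm
      rw [h1]
      exact Submodule.mem_map_of_mem (hN _ (min_le_right i r) _ v hv)
  have hsteps : OG.steps N' r = Finset.range r := by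
    ext i
    rw [OG.mem_steps, Finset.mem_range]
    constructor
    · exact fun h => h.1
    · intro h
      refine ⟨h, ?_⟩
      intro he
      have h1 : min i r = i := min_eq_left h.le
      have h2 : min (i + 1) r = i + 1 := min_eq_left h
      have he' : (N (min i r)).map I = (N (min (i + 1) r)).map I := he
      rw [h1, h2] at he'
      exact (hlt i h).ne (Submodule.map_injective_of_injective hIinj he')
  have hfin := hB N' hCh r
  rw [hsteps, Finset.card_range] at hfin
  exact hfin

end Pool.Agent.Results.MP_0bd1d1_al.SymplecticRows
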