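import Pool.Agent.Helper60.UN.UMain
import Pool.Agent.Helper60.UN.UG
import Pool.Agent.Helper60.UN.UM
import Pool.Agent.Helper60.OG.Fin

/-!
# MP_0bd1d1_al: bounded decomposition numbers for the constituents of the permutation
character on the maximal isotropic subspaces, unitary groups of degree 2n, all q and all l

`F / k` is a quadratic extension of finite fields of characteristic `p` (odd or even), `b` a
nondegenerate hermitian form on the `F`-space `X` of dimension `2 n`, `R` a valuation ring
with fraction field `K`, with `p` a unit of `R` and with a primitive `p`-th root of unity in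
`R`.  Every reduction of every representation contained in the permutation representation on
the totally isotropic `n`-dimensional subspaces has composition length at most
`(n + 1) * 16 ^ n`.
-/

namespace Pool.Agent.Results.MP_0bd1d1_al.UnitaryRows

open Module

/-- The unitary group of the form `b`. -/
def GU {F X : Type*} [Field F] [AddCommGroup X] [Module F X] (b : X → X → F) :
    Subgroup (X ≃ₗ[F] X) where
  carrier := {g | ∀ u v, b (g u) (g v) = b u v}
  one_mem' := fun _ _ => rfl
  mul_mem' := by
    intro g h hg hh u v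
    change b (g (h u)) (g (h v)) = b u v
    rw [hg, hh]
  inv_mem' := by
    intro g hg u v
    have h1 : ∀ x, g (g⁻¹ x) = x := fun x => g.apply_symm_apply x
    have h2 := hg (g⁻¹ u) (g⁻¹ v)
    rw [h1, h1] at h2
    exact h2.symm

/-- The totally isotropic subspaces of dimension `n`. -/
def TotIso {F X : Type*} [Field F] [AddCommGroup X] [Module F X] (b : X → X → F)
    (n : ℕ) : Set (Submodule F X) :=
  {W | finrank F W = n ∧ ∀ u ∈ W, ∀ v ∈ W, b u v = 0}

/-- `Reduct R ρ L n`: the reduction `L / 𝔪 L` of the `R`-submodule `L` of the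
representation `ρ` has composition length at most `n`: every chain
`𝔪 L ≤ N 0 < N 1 < ... < N r ≤ L` of stable `R`-submodules has `r ≤ n`. -/
def Reduct (R : Type*) [CommRing R] [IsLocalRing R] {K G V : Type*} [Field K] [Group G]
    [AddCommGroup V] [Module K V] [Module R V] (ρ : Representation K G V)
    (L : Submodule R V) (n : ℕ) : Prop :=
  ∀ (r : ℕ) (N : ℕ → Submodule R V),
    (∀ i ≤ r, ∀ (g : G), ∀ v ∈ N i, ρ g v ∈ N i) →
    (∀ i < r, N i < N (i + 1)) →
    N r ≤ L →
    (∀ a ∈ IsLocalRing.maximalIdeal R, ∀ v ∈ L, a • v ∈ N 0) →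
    r ≤ n

theorem result {k F X R K V : Type*} [Field k] [Finite k] [Field F] [Algebra k F]
    (hF : finrank k F = 2) (σ : F ≃ₐ[k] F) (hσ : σ ≠ 1)
    [AddCommGroup X] [Module F X] [FiniteDimensional F X] (n : ℕ) (hX : finrank F X = 2 * n)
    (b : X → X → F) (hadd : ∀ x y z, b (x + y) z = b x z + b y z)
    (hsmul : ∀ (c : F) x z, b (c • x) z = c * b x z) (hsym : ∀ x y, b y x = σ (b x y))
    (hnd : ∀ x, (∀ y, b x y = 0) → x = 0)
    (p : ℕ) [Fact p.Prime] [CharP k p]
    [CommRing R] [IsDomain R] [ValuationRing R] [Field K] [Algebra R K] [IsFractionRing R K]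
    (hp : IsUnit (p : R)) (ζ : R) (hζ : IsPrimitiveRoot ζ p)
    (G : Subgroup (X ≃ₗ[F] X)) (hG : GU b ≤ G)
    [AddCommGroup V] [Module K V] [Module R V] [IsScalarTower R K V]
    (ρ : Representation K G V) (ι : V →ₗ[K] (Submodule F X → K))
    (hι : Function.Injective ι) (hS : ∀ v W, W ∉ TotIso b n → ι v W = 0)
    (hρ : ∀ (g : G) v W, ι (ρ g v) W = ι v (W.comap ((g : X ≃ₗ[F] X) : X →ₗ[F] X)))
    (L : Submodule R V) :
    Reduct R ρ L ((n + 1) * 16 ^ n) := by
  intro r N hN hlt hr hm
  have hQE : UN.QE σ := UN.UG.QE_of σ hσ hF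
  obtain ⟨ψ, hψ⟩ := OG.exists_char (k := k) (R := R) p ζ hζ
  have hcF : CharP F p := charP_of_injective_algebraMap (algebraMap k F).injective p
  obtain ⟨χ, hχ⟩ := OG.exists_char (k := F) (R := R) p ζ hζ
  have hq : IsUnit ((Nat.card k : ℕ) : R) := by
    have : Fintype k := Fintype.ofFinite k
    obtain ⟨n, _, hn⟩ := FiniteField.card k p
    rw [Nat.card_eq_fintype_card, hn, Nat.cast_pow]
    exact hp.pow _
  have hB : OG.Bd R K (GU b : Set (X ≃ₗ[F] X)) (TotIso b n) ((n + 1) * 16 ^ n) := by
    by_cases hne : ∃ W₀, W₀ ∈ TotIso b n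
    · obtain ⟨W₀, hW₀⟩ := hne
      obtain ⟨δ, φ, hδ, hφ⟩ :=
        UN.UM.exists_modelU hQE b hadd hsmul hsym hnd W₀ hW₀.1 hX hW₀.2
      have hφ' : ∀ u v, UN.hf σ u v = δ * b (φ.symm u) (φ.symm v) := by
        intro u v
        rw [← hφ, φ.apply_symm_apply, φ.apply_symm_apply]
      have hB0 := UN.Bd_U (K := K) (R := R) (n := n) hQE hψ hq hχ
      have hB1 := SY.Bd_transport (fun g => φ.trans (g.trans φ.symm))
        (fun W => W.map (φ.symm : ((Fin n → F) × (Fin n → F)) →ₗ[F] X))
        UN.UB.Lag_stb (by
          intro g _ W _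
          rw [OG.smul_def, OG.smul_def, ← Submodule.map_comp, ← Submodule.map_comp]
          congr 1
          refine LinearMap.ext (fun x => ?_)
          change φ.symm (g x) = φ.symm (g (φ (φ.symm x)))
          rw [φ.apply_symm_apply]) hB0
      refine OG.Bd_mono hB1 ?_ ?_ le_rfl
      · rintro _ ⟨g, hg, rfl⟩ u v
        change b (φ.symm (g (φ u))) (φ.symm (g (φ v))) = b u v
        have hg' : ∀ u v, UN.hf σ (g u) (g v) = UN.hf σ u v := hg
        apply mul_left_cancel₀ hδ
        rw [← hφ', hg', hφ]
      · intro W hW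
        refine ⟨W.map (φ : X →ₗ[F] ((Fin n → F) × (Fin n → F))), ⟨?_, ?_⟩, ?_⟩
        · rw [LinearEquiv.finrank_map_eq]
          exact hW.1
        · rintro _ ⟨u, hu, rfl⟩ _ ⟨v, hv, rfl⟩
          change UN.hf σ (φ u) (φ v) = 0
          rw [hφ, hW.2 u hu v hv, mul_zero]
        · change (W.map _).map _ = W
          rw [← Submodule.map_comp]
          have : (φ.symm : ((Fin n → F) × (Fin n → F)) →ₗ[F] X) ∘ₗ
              (φ : X →ₗ[F] ((Fin n → F) × (Fin n → F))) = LinearMap.id :=
            LinearMap.ext (fun x => φ.symm_apply_apply x)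
          rw [this, Submodule.map_id]
    · have hem : TotIso b n = ∅ := by
        ext W
        constructor
        · exact fun hW => absurd ⟨W, hW⟩ hne
        · exact fun hW => absurd hW (Set.notMem_empty W)
      rw [hem]
      exact OG.Bd_mono OG.Bd_empty subset_rfl subset_rfl (Nat.zero_le _)
  set I : V →ₗ[R] (Submodule F X → K) := ι.restrictScalars R with hI
  have hIinj : Function.Injective I := hι
  set N' : ℕ → Submodule R (Submodule F X → K) := fun i => (N (min i r)).map I with hN'
  have hmono : ∀ i j, i ≤ j → j ≤ r → N i ≤ N j := by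
    intro i j hij hjr
    induction j with
    | zero =>
      have : i = 0 := by omega
      rw [this]
    | succ j ih =>
      rcases Nat.lt_or_ge j i with h | h
      · have : i = j + 1 := by omega
        rw [this]
      · exact le_trans (ih h (by omega)) (hlt j (by omega)).le
  have hCh : OG.Ch R (GU b : Set (X ≃ₗ[F] X)) (TotIso b n) N' := by
    refine ⟨?_, ?_, ?_, ?_⟩
    · intro a b hab
      exact Submodule.map_mono (hmono _ _ (min_le_min_right r hab) (min_le_right _ _))
    · intro i f hf W hW
      obtain ⟨v, _, rfl⟩ := (Submodule.mem_map).1 hf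
      exact hS v W hW
    · intro i a ha f hf
      obtain ⟨v, hv, rfl⟩ := (Submodule.mem_map).1 hf
      rw [← map_smul]
      apply Submodule.mem_map_of_mem
      rw [Nat.zero_min]
      exact hm a ha v (hr (hmono _ _ (min_le_right i r) le_rfl hv))
    · intro g hg i f hf
      obtain ⟨v, hv, rfl⟩ := (Submodule.mem_map).1 hf
      have h1 : OG.act g (I v) = I (ρ ⟨g, hG hg⟩ v) := by
        funext W
        have h2 : g⁻¹ • W = W.comap (g : X →ₗ[F] X) := by
          ext x
          rw [OG.mem_smul, Submodule.mem_comap]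
          constructor
          · rintro ⟨w, hw, rfl⟩
            have : g (g⁻¹ w) = w := g.apply_symm_apply w
            change g (g⁻¹ w) ∈ W
            rw [this]
            exact hw
          · intro hx
            exact ⟨g x, hx, g.symm_apply_apply x⟩
        rw [OG.act_apply, h2]
        exact (hρ ⟨g, hG hg⟩ v W).symm
      rw [h1]
      exact Submodule.mem_map_of_mem (hN _ (min_le_right i r) _ v hv)
  have hsteps : OG.steps N' r = Finset.range r := by
    ext i
    rw [OG.mem_steps, Finset.mem_range]
    constructor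
    · exact fun h => h.1
    · intro h
      refine ⟨h, ?_⟩
      intro he
      have h1 : min i r = i := min_eq_left h.le
      have h2 : min (i + 1) r = i + 1 := min_eq_left h
      have he' : (N (min i r)).map I = (N (min (i + 1) r)).map I := he
      rw [h1, h2] at he'
      exact (hlt i h).ne (Submodule.map_injective_of_injective hIinj he')
  have hfin := hB N' hCh r
  rw [hsteps, Finset.card_range] at hfin
  exact hfin

end Pool.Agent.Results.MP_0bd1d1_al.UnitaryRows
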